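import Pool.Agent.H75.BC.R.Cor
import Pool.Agent.Lead.BCB.FDefs

/-!
MP_357da3_an, Q1 for `N = M`: Connes' bicentralizer problem.
-/

set_option autoImplicit false

open MeasureTheory Filter Topology Complex
open Pool.Agent.Lead.BicFlow

/-- Let `M` be a factor of type III₁ and let `φ = ⟨ξ, · ξ⟩` be a faithful normal state of `M`, given by a cyclic and
separating unit vector `ξ`, with modular group `σ_t = Ad U_t`. Then the bicentralizer `B(M, φ)`, the set of all
`x ∈ M` with `x a_n - a_n x → 0` strongly for all bounded sequences `(a_n)` in `M` with `‖a_n φ - φ a_n‖ → 0`,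
consists of the scalars. -/
theorem Pool.Agent.Results.MP_357da3_an.BicentralizerTrivial.result
    (H : Type) [NormedAddCommGroup H] [InnerProductSpace ℂ H] [CompleteSpace H]
    (M : VonNeumannAlgebra H) (ξ : H) (U : ℝ → H →L[ℂ] H) (hξ : ‖ξ‖ = 1) (hcyc : IsCyclic M ξ)
    (hsep : IsSeparating M ξ) (hU : IsModular M ξ U) (hM : IsTypeIIIOne M U)
    (x : H →L[ℂ] H) (hx : x ∈ Bic M M ξ) : ∃ c : ℂ, x = c • (1 : H →L[ℂ] H) := by
  have hU' : Pool.Agent.W662.CB.IsModular M ξ U :=
    ⟨hU.zero, hU.add, hU.star_eq, hU.cont, hU.fix, hU.mem, hU.kms⟩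
  exact ⟨_, Pool.Agent.H75.BC.R.bicentralizer_trivial M ξ U hξ hcyc hsep hU' hM.2 hx⟩
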