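import Pool.Agent.H75.BC.G.FinUni
import Pool.Agent.H75.BC.T.SB
import Pool.Agent.H75.BC.T.Baire

/-!
MP_357da3_an, Q1: the relative bicentralizer flow is isomorphic to the relative flow of weights.
-/

set_option autoImplicit false

open Pool.Agent.Lead.BicFlow

/-- Let `N ⊆ M` be von Neumann algebras with separable predual, `N` a type III₁ factor, and let `E` be a
conditional expectation of `M` onto `N` with `φ ∘ E = φ` for the faithful normal state `φ` of `M`.  For every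
dominant weight `ψ` on `N` (with Connes cocycle `w`) there are the (unique) relative bicentralizer flow `β` and
a normal `*`-isomorphism `π` of `B(N ⊂ M, φ)` onto `(N_ψ)' ∩ M` with `θ_l ∘ π = π ∘ β_l` and
`E(π(x)) = φ(E(x)) 1`. -/
theorem Pool.Agent.Results.MP_357da3_an.DominantWeights.result
    (H : Type) [NormedAddCommGroup H] [InnerProductSpace ℂ H] [CompleteSpace H]
    [TopologicalSpace.SeparableSpace H]
    (M N : VonNeumannAlgebra H) (ξ : H) (U : ℝ → H →L[ℂ] H) (E : (H →L[ℂ] H) → (H →L[ℂ] H))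
    (hd : IsData M N ξ U E) (hN : IsTypeIIIOne N U) (w : ℝ → H →L[ℂ] H) (hw : IsDominant N U w) :
    ∃ (β : ℝ → (H →L[ℂ] H) → (H →L[ℂ] H)) (π : (H →L[ℂ] H) → (H →L[ℂ] H)),
      IsBicFlow N M ξ β ∧
      (∀ β' : ℝ → (H →L[ℂ] H) → (H →L[ℂ] H), IsBicFlow N M ξ β' →
        ∀ (l : ℝ) (x : H →L[ℂ] H), 0 < l → x ∈ Bic N M ξ → β' l x = β l x) ∧
      IsNormalIso (Bic N M ξ) (RelComm N M U w) π ∧
      (∀ (l : ℝ) (u x : H →L[ℂ] H), 0 < l → Scales N U w l u → x ∈ Bic N M ξ →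
        u * π x * star u = π (β l x)) ∧
      ∀ x : H →L[ℂ] H, x ∈ Bic N M ξ → E (π x) = vst ξ (E x) • (1 : H →L[ℂ] H) :=
  Pool.Agent.H75.BC.FinUni.final_unique
    (fun _ => Pool.Agent.H75.BC.SB.sb)
    (fun _ => Pool.Agent.H75.BC.Baire.baire_sec)
    H M N ξ U E hd hN w hw
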